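import Pool.Agent.H836R3.SE.Final

/-!
# The steepest-edge path is not stochastically dominated by the shadow

For every constant `α` and every polynomial `x₀` there are a linear program of Frobenius norm at
most one, a noise level `σ`, a direction `z` and a threshold `x > x₀ (m, n, 1/σ)` such that the
probability that the steepest-edge path of the Gaussian perturbation has more than `x` steps is
more than `α` times the probability that the shadow has more than `x` vertices.
-/

open MeasureTheory ProbabilityTheory

namespace Pool.Agent.Results.MP_42ca66_lc.SteepestEdge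

open Pool.H836R3.SE

/-- **Q1, answered in the negative.** -/
theorem result (α : ℝ) (x₀ : MvPolynomial (Fin 3) ℝ) :
    ∃ (m n : ℕ) (σ : ℝ) (Abar : Fin m → Fin n → ℝ) (cbar z : Fin n → ℝ) (x : ℕ),
      0 < σ ∧ ∑ i, ∑ j, Abar i j ^ 2 + ∑ j, cbar j ^ 2 ≤ 1 ∧
      MvPolynomial.eval ![(m : ℝ), (n : ℝ), 1 / σ] x₀ < x ∧
      ENNReal.ofReal α * law Abar cbar σ {ω | (x : ℕ∞) < shadowCard ω.1 z ω.2} <
        law Abar cbar σ {ω | (x : ℕ∞) < pathLen ω.1 z ω.2} :=
  main_result α x₀

end Pool.Agent.Results.MP_42ca66_lc.SteepestEdge
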